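import Pool.Agent.Helper884.IC.Compl

/-!
# Irreducible characters separate classes; the Galois action on character values
-/

set_option autoImplicit false

open scoped BigOperators

noncomputable section

namespace Pool.Agent.Q99.CT

open Pool.Agent.Helper884

/-- Elements with the same irreducible character values are conjugate. -/
theorem sep {G : Type} [Group G] [Fintype G] (x y : G)
    (h : ∀ χ : G → ℂ, IC.IsIrrChar χ → χ x = χ y) : IsConj x y := by
  classical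
  let f : G → ℂ := fun g => if IsConj x g then 1 else 0
  have hf : IC.IsClass f := by
    intro g z
    have hz : IsConj g (z * g * z⁻¹) := isConj_iff.mpr ⟨z, rfl⟩
    change (if IsConj x (z * g * z⁻¹) then (1 : ℂ) else 0) = if IsConj x g then 1 else 0
    by_cases h1 : IsConj x g
    · rw [if_pos h1, if_pos (h1.trans hz)]
    · rw [if_neg h1, if_neg (fun h2 => h1 (h2.trans hz.symm))]
  have h1 : f x = f y := by
    rw [IC.expand f hf]
    simp only [Finset.sum_apply, Pi.smul_apply]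
    exact Finset.sum_congr rfl fun χ hχ => by rw [h χ (IC.mem_Irr.mp hχ)]
  have hx : f x = 1 := if_pos (IsConj.refl x)
  rw [hx] at h1
  by_contra hn
  have hy : f y = 0 := if_neg hn
  rw [hy] at h1
  exact one_ne_zero h1

/-- The trace of an idempotent is a natural number. -/
theorem trace_idem {V : Type} [AddCommGroup V] [Module ℂ V] [FiniteDimensional ℂ V]
    (f : V →ₗ[ℂ] V) (h : f ∘ₗ f = f) : ∃ n : ℕ, LinearMap.trace ℂ V f = n := by
  have h1 : LinearMap.IsProj (LinearMap.range f) f := by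
    constructor
    · intro x; exact LinearMap.mem_range_self f x
    · rintro x ⟨y, rfl⟩
      exact LinearMap.congr_fun h y
  exact ⟨_, h1.trace⟩

section proj

variable {V : Type} [AddCommGroup V] [Module ℂ V]

/-- The projector on the eigenspace of `T` for the eigenvalue `ζ ^ i`. -/
def pr (T : Module.End ℂ V) (N : ℕ) (ζ : ℂ) (i : ℕ) : Module.End ℂ V :=
  (N : ℂ)⁻¹ • ∑ k ∈ Finset.range N, (ζ⁻¹ ^ (i * k)) • T ^ k

theorem geom_zero {N : ℕ} {a : ℂ} (ha : a ^ N = 1) (h1 : a ≠ 1) :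
    ∑ i ∈ Finset.range N, a ^ i = 0 := by
  have := mul_geom_sum a N
  rw [ha, sub_self] at this
  exact (mul_eq_zero.mp this).resolve_left (sub_ne_zero.mpr h1)

theorem T_pr {T : Module.End ℂ V} {N : ℕ} (hN : 0 < N) {ζ : ℂ} (hζ : IsPrimitiveRoot ζ N)
    (hT : T ^ N = 1) (i : ℕ) : T * pr T N ζ i = (ζ ^ i) • pr T N ζ i := by
  have hz : ζ ≠ 0 := hζ.ne_zero hN.ne'
  unfold pr
  rw [mul_smul_comm, smul_comm]
  congr 1
  rw [Finset.mul_sum, Finset.smul_sum]
  have h1 : ∀ k : ℕ, T * (ζ⁻¹ ^ (i * k)) • T ^ k = ζ ^ i • (ζ⁻¹ ^ (i * (k + 1)) • T ^ (k + 1)) := by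
    intro k
    rw [mul_smul_comm, ← pow_succ', smul_smul]
    congr 1
    rw [mul_add, mul_one, pow_add, mul_left_comm, ← mul_pow, mul_inv_cancel₀ hz, one_pow, mul_one]
  have h2 : ∑ k ∈ Finset.range N, T * (ζ⁻¹ ^ (i * k)) • T ^ k =
      ∑ k ∈ Finset.range N, ζ ^ i • (ζ⁻¹ ^ (i * (k + 1)) • T ^ (k + 1)) :=
    Finset.sum_congr rfl fun k _ => h1 k
  rw [h2]
  have h3 := Finset.sum_range_succ (fun k => ζ ^ i • (ζ⁻¹ ^ (i * k) • T ^ k)) N
  have h4 := Finset.sum_range_succ' (fun k => ζ ^ i • (ζ⁻¹ ^ (i * k) • T ^ k)) N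
  rw [h3] at h4
  have h5 : ζ ^ i • (ζ⁻¹ ^ (i * N) • T ^ N) = ζ ^ i • (ζ⁻¹ ^ (i * 0) • T ^ 0) := by
    rw [hT, mul_comm i N, pow_mul, inv_pow, hζ.pow_eq_one]
    simp
  rw [h5] at h4
  exact (add_right_cancel h4).symm

theorem Tpow_pr {T : Module.End ℂ V} {N : ℕ} (hN : 0 < N) {ζ : ℂ} (hζ : IsPrimitiveRoot ζ N)
    (hT : T ^ N = 1) (i j : ℕ) : T ^ j * pr T N ζ i = (ζ ^ (i * j)) • pr T N ζ i := by
  induction j with
  | zero => simp
  | succ j ih =>
    rw [pow_succ, mul_assoc, T_pr hN hζ hT, mul_smul_comm, ih, smul_smul, mul_add, mul_one,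
      pow_add, mul_comm]

theorem pr_idem {T : Module.End ℂ V} {N : ℕ} (hN : 0 < N) {ζ : ℂ} (hζ : IsPrimitiveRoot ζ N)
    (hT : T ^ N = 1) (i : ℕ) : pr T N ζ i * pr T N ζ i = pr T N ζ i := by
  have hz : ζ ≠ 0 := hζ.ne_zero hN.ne'
  have h1 : pr T N ζ i * pr T N ζ i = (N : ℂ)⁻¹ • ∑ k ∈ Finset.range N,
      (ζ⁻¹ ^ (i * k)) • (T ^ k * pr T N ζ i) := by
    conv_lhs => enter [1]; unfold pr
    rw [smul_mul_assoc, Finset.sum_mul]
    simp only [smul_mul_assoc]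
  rw [h1]
  have h2 : ∀ k : ℕ, (ζ⁻¹ ^ (i * k)) • (T ^ k * pr T N ζ i) = pr T N ζ i := by
    intro k
    rw [Tpow_pr hN hζ hT, smul_smul, ← mul_pow, inv_mul_cancel₀ hz, one_pow, one_smul]
  simp only [h2]
  rw [Finset.sum_const, Finset.card_range, ← Nat.cast_smul_eq_nsmul ℂ, smul_smul,
    inv_mul_cancel₀ (by exact_mod_cast hN.ne'), one_smul]

theorem sum_pr {T : Module.End ℂ V} {N : ℕ} (hN : 0 < N) {ζ : ℂ} (hζ : IsPrimitiveRoot ζ N) :
    ∑ i ∈ Finset.range N, pr T N ζ i = 1 := by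
  unfold pr
  rw [← Finset.smul_sum, Finset.sum_comm]
  have h1 : ∀ k ∈ Finset.range N, ∑ i ∈ Finset.range N, (ζ⁻¹ ^ (i * k)) • T ^ k =
      if k = 0 then (N : ℂ) • (1 : Module.End ℂ V) else 0 := by
    intro k hk
    rw [← Finset.sum_smul]
    have h2 : ∀ i : ℕ, ζ⁻¹ ^ (i * k) = (ζ⁻¹ ^ k) ^ i := fun i => by rw [← pow_mul, mul_comm]
    simp only [h2]
    split_ifs with h
    · subst h; simp
    · rw [geom_zero, zero_smul]
      · rw [← pow_mul, mul_comm, pow_mul, inv_pow, hζ.pow_eq_one]; simp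
      · intro h3
        rw [inv_pow, inv_eq_one] at h3
        exact h (Nat.eq_zero_of_dvd_of_lt (hζ.dvd_of_pow_eq_one k h3) (Finset.mem_range.mp hk))
  rw [Finset.sum_congr rfl h1, Finset.sum_ite_eq' (Finset.range N) 0, if_pos (Finset.mem_range.mpr hN),
    smul_smul, inv_mul_cancel₀ (by exact_mod_cast hN.ne'), one_smul]

end proj

/-- Values of a character on the powers of an element `g` with `g ^ N = 1`. -/
theorem char_expand {G : Type} [Group G] {V : Type} [AddCommGroup V] [Module ℂ V]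
    [FiniteDimensional ℂ V] (ρ : Representation ℂ G V) (g : G) {N : ℕ} (hN : 0 < N)
    (hg : g ^ N = 1) {ζ : ℂ} (hζ : IsPrimitiveRoot ζ N) :
    ∃ m : ℕ → ℕ, ∀ j : ℕ, ρ.character (g ^ j) = ∑ i ∈ Finset.range N, (m i : ℂ) * ζ ^ (i * j) := by
  have hT : (ρ g) ^ N = 1 := by rw [← map_pow, hg, map_one]
  have h1 : ∀ i, ∃ n : ℕ, LinearMap.trace ℂ V (pr (ρ g) N ζ i) = n := fun i =>
    trace_idem _ (pr_idem hN hζ hT i)
  choose m hm using h1
  refine ⟨m, fun j => ?_⟩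
  have h2 : ρ (g ^ j) = ∑ i ∈ Finset.range N, (ζ ^ (i * j)) • pr (ρ g) N ζ i := by
    rw [map_pow, ← mul_one ((ρ g) ^ j), ← sum_pr hN hζ (T := ρ g), Finset.mul_sum]
    exact Finset.sum_congr rfl fun i _ => by rw [Tpow_pr hN hζ hT]
  unfold Representation.character
  rw [h2, map_sum]
  refine Finset.sum_congr rfl fun i _ => ?_
  rw [map_smul, hm, smul_eq_mul, mul_comm]

/-- The cyclotomic field in `ℂ` generated by `ζ`. -/
def cyc (ζ : ℂ) : IntermediateField ℚ ℂ := IntermediateField.adjoin ℚ {ζ}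

theorem zeta_mem (ζ : ℂ) : ζ ∈ cyc ζ := IntermediateField.mem_adjoin_simple_self ℚ ζ

/-- For `j` coprime to `N` there is an embedding of `ℚ(ζ_N)` in `ℂ` with `ζ ↦ ζ ^ j`. -/
theorem exists_emb {N : ℕ} (hN : 0 < N) {ζ : ℂ} (hζ : IsPrimitiveRoot ζ N) {j : ℕ}
    (hj : j.Coprime N) :
    ∃ σ : cyc ζ →ₐ[ℚ] ℂ, σ ⟨ζ, zeta_mem ζ⟩ = ζ ^ j := by
  have hint : IsIntegral ℚ ζ := (hζ.isIntegral hN).tower_top
  have hmin : minpoly ℚ ζ = minpoly ℚ (ζ ^ j) := by
    have h1 := hζ.minpoly_eq_pow_coprime hj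
    have h2 := minpoly.isIntegrallyClosed_eq_field_fractions' ℚ (hζ.isIntegral hN)
    have h3 := minpoly.isIntegrallyClosed_eq_field_fractions' ℚ ((hζ.pow_of_coprime j hj).isIntegral hN)
    rw [h2, h3, h1]
  have hroot : ζ ^ j ∈ (minpoly ℚ ζ).aroots ℂ := by
    rw [Polynomial.mem_aroots]
    refine ⟨minpoly.ne_zero hint, ?_⟩
    rw [hmin, minpoly.aeval]
  exact ⟨(IntermediateField.algHomAdjoinIntegralEquiv ℚ hint).symm ⟨ζ ^ j, hroot⟩,
    IntermediateField.algHomAdjoinIntegralEquiv_symm_apply_gen ℚ hint _⟩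

/-- The field of all the values of the irreducible characters. -/
def charField (G : Type) [Group G] : IntermediateField ℚ ℂ :=
  IntermediateField.adjoin ℚ {z : ℂ | ∃ χ : G → ℂ, IC.IsIrrChar χ ∧ ∃ g : G, χ g = z}

theorem char_mem_cyc {G : Type} [Group G] {N : ℕ} (hN : 0 < N) {ζ : ℂ}
    (hζ : IsPrimitiveRoot ζ N) {χ : G → ℂ} (hχ : IC.IsIrrChar χ) (g : G) (hg : g ^ N = 1) :
    χ g ∈ cyc ζ := by
  obtain ⟨V, _, _, _, ρ, -, rfl⟩ := hχ
  obtain ⟨m, hm⟩ := char_expand ρ g hN hg hζ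
  have := hm 1
  rw [pow_one] at this
  rw [this]
  exact sum_mem fun i _ => mul_mem (natCast_mem _ _) (pow_mem (zeta_mem ζ) _)

theorem charField_le {G : Type} [Group G] {N : ℕ} (hN : 0 < N) {ζ : ℂ}
    (hζ : IsPrimitiveRoot ζ N) (hG : ∀ g : G, g ^ N = 1) : charField G ≤ cyc ζ := by
  rw [charField, IntermediateField.adjoin_le_iff]
  rintro z ⟨χ, hχ, g, rfl⟩
  exact char_mem_cyc hN hζ hχ g (hG g)

/-- Galois action: `σ_j (χ(g)) = χ(g ^ j)`. -/
theorem emb_char {G : Type} [Group G] {N : ℕ} (hN : 0 < N) {ζ : ℂ}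
    (hζ : IsPrimitiveRoot ζ N) {j : ℕ} {σ : cyc ζ →ₐ[ℚ] ℂ}
    (hσ : σ ⟨ζ, zeta_mem ζ⟩ = ζ ^ j) {χ : G → ℂ} (hχ : IC.IsIrrChar χ) (g : G) (hg : g ^ N = 1) :
    σ ⟨χ g, char_mem_cyc hN hζ hχ g hg⟩ = χ (g ^ j) := by
  have hχ' := hχ
  obtain ⟨V, _, _, _, ρ, -, rfl⟩ := hχ'
  obtain ⟨m, hm⟩ := char_expand ρ g hN hg hζ
  rw [hm j]
  have h1 : (⟨ρ.character g, char_mem_cyc hN hζ hχ g hg⟩ : cyc ζ) =
      ∑ i ∈ Finset.range N, (m i : cyc ζ) * (⟨ζ, zeta_mem ζ⟩ : cyc ζ) ^ i := by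
    apply Subtype.ext
    have h2 := hm 1
    rw [pow_one] at h2
    change ρ.character g = ((∑ i ∈ Finset.range N, (m i : cyc ζ) * (⟨ζ, zeta_mem ζ⟩ : cyc ζ) ^ i :
      cyc ζ) : ℂ)
    rw [h2]
    push_cast
    refine Finset.sum_congr rfl fun i _ => ?_
    rw [mul_one]
  rw [h1, map_sum]
  refine Finset.sum_congr rfl fun i _ => ?_
  rw [map_mul, map_pow, hσ, map_natCast, ← pow_mul, mul_comm i j]

/-- If `J` is a set of exponents coprime to `N`, and for any two distinct elements `j`, `k` of `J`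
there is `g` with `g ^ j`, `g ^ k` not conjugate, then the degree of the field of character values
is at least `|J|`. -/
theorem card_le_finrank {G : Type} [Group G] [Fintype G] {N : ℕ} (hN : 0 < N)
    (hG : ∀ g : G, g ^ N = 1) {ι : Type} [Fintype ι] (J : ι → ℕ) (hJ : ∀ i, (J i).Coprime N)
    (hne : ∀ i k, i ≠ k → ∃ g : G, ¬ IsConj (g ^ J i) (g ^ J k)) :
    Fintype.card ι ≤ Module.finrank ℚ (charField G) := by
  classical
  obtain ⟨ζ, hζ⟩ : ∃ ζ : ℂ, IsPrimitiveRoot ζ N := ⟨_, Complex.isPrimitiveRoot_exp N hN.ne'⟩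
  have hint : IsIntegral ℚ ζ := (hζ.isIntegral hN).tower_top
  haveI : FiniteDimensional ℚ (cyc ζ) := IntermediateField.adjoin.finiteDimensional hint
  have hle := charField_le hN hζ hG
  haveI : FiniteDimensional ℚ (charField G) :=
    Module.Finite.of_injective (IntermediateField.inclusion hle).toLinearMap
      (IntermediateField.inclusion hle).injective
  have hex : ∀ i, ∃ σ : cyc ζ →ₐ[ℚ] ℂ, σ ⟨ζ, zeta_mem ζ⟩ = ζ ^ J i := fun i =>
    exists_emb hN hζ (hJ i)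
  choose σ hσ using hex
  let τ : ι → (charField G →ₐ[ℚ] ℂ) := fun i => (σ i).comp (IntermediateField.inclusion hle)
  have hinj : Function.Injective τ := by
    intro i k hik
    by_contra hne'
    obtain ⟨g, hg⟩ := hne i k hne'
    apply hg
    apply sep
    intro χ hχ
    have hmem : χ g ∈ charField G := IntermediateField.subset_adjoin ℚ _ ⟨χ, hχ, g, rfl⟩
    have h1 := DFunLike.congr_fun hik (⟨χ g, hmem⟩ : charField G)
    rw [← emb_char hN hζ (hσ i) hχ g (hG g), ← emb_char hN hζ (hσ k) hχ g (hG g)]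
    exact h1
  calc Fintype.card ι ≤ Fintype.card (charField G →ₐ[ℚ] ℂ) := Fintype.card_le_of_injective τ hinj
    _ = Module.finrank ℚ (charField G) := AlgHom.card ℚ (charField G) ℂ

end Pool.Agent.Q99.CT
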