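import Pool.Agent.Q99.CT.Basic

/-!
# Degrees and values of irreducible characters with respect to an abelian normal subgroup
-/

set_option autoImplicit false
set_option linter.style.haveILetI false

open scoped BigOperators
open Polynomial

noncomputable section

namespace Pool.Agent.Q99.CT

open Pool.Agent.Helper884

/-- A commuting family of operators on a nonzero finite-dimensional complex vector space has a
common eigenvector. -/
theorem exists_common_eigenvector {V : Type} [AddCommGroup V] [Module ℂ V] [FiniteDimensional ℂ V]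
    [Nontrivial V] {I : Type} (T : I → Module.End ℂ V) (hT : ∀ i j, T i * T j = T j * T i) :
    ∃ x : V, x ≠ 0 ∧ ∀ i, ∃ c : ℂ, T i x = c • x := by
  let S : Set (Submodule ℂ V) := {W | W ≠ ⊥ ∧ ∀ i, ∀ x ∈ W, T i x ∈ W}
  obtain ⟨W, ⟨hW0, hW⟩, hmin⟩ := wellFounded_lt.has_min S ⟨⊤, top_ne_bot, fun _ _ _ => trivial⟩
  have hscal : ∀ i, ∃ c : ℂ, ∀ x ∈ W, T i x = c • x := by
    intro i
    let Ti : Module.End ℂ W := (T i).restrict (hW i)
    haveI : Nontrivial W := Submodule.nontrivial_iff_ne_bot.mpr hW0
    obtain ⟨c, hc⟩ := Module.End.exists_eigenvalue Ti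
    obtain ⟨y, hy⟩ := hc.exists_hasEigenvector
    refine ⟨c, ?_⟩
    let W' : Submodule ℂ V := W ⊓ LinearMap.ker (T i - c • (1 : Module.End ℂ V))
    have hmem : ∀ x, x ∈ W' ↔ x ∈ W ∧ T i x = c • x := by
      intro x
      rw [Submodule.mem_inf, LinearMap.mem_ker, LinearMap.sub_apply, LinearMap.smul_apply,
        Module.End.one_apply, sub_eq_zero]
    have hW'S : W' ∈ S := by
      constructor
      · intro h0
        have h1 : (y : V) ∈ W' := by
          rw [hmem]
          refine ⟨y.2, ?_⟩
          exact congrArg Subtype.val hy.apply_eq_smul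
        rw [h0, Submodule.mem_bot] at h1
        exact hy.2 (Subtype.ext h1)
      · intro j x hx
        rw [hmem] at hx ⊢
        refine ⟨hW j x hx.1, ?_⟩
        rw [← Module.End.mul_apply, hT i j, Module.End.mul_apply, hx.2, map_smul]
    have hle : W' ≤ W := inf_le_left
    have heq : W' = W := by
      by_contra hne
      exact hmin W' hW'S (lt_of_le_of_ne hle hne)
    intro x hx
    rw [← heq, hmem] at hx
    exact hx.2
  obtain ⟨x, hx, hx0⟩ := Submodule.exists_mem_ne_zero_of_ne_bot hW0
  refine ⟨x, hx0, fun i => ?_⟩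
  obtain ⟨c, hc⟩ := hscal i
  exact ⟨c, hc x hx⟩

/-- The degree of an irreducible character is at most the index of an abelian normal subgroup;
here the subgroup is the kernel of a surjection on `H`. -/
theorem deg_le {G : Type} [Group G] [Finite G] {H : Type} [Group H] [Finite H] (f : G →* H)
    (s : H → G) (hs : ∀ h, f (s h) = h) (hab : ∀ x y : G, f x = 1 → f y = 1 → x * y = y * x)
    {V : Type} [AddCommGroup V] [Module ℂ V] [FiniteDimensional ℂ V]
    (ρ : Representation ℂ G V) (hρ : ρ.IsIrreducible) : Module.finrank ℂ V ≤ Nat.card H := by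
  classical
  rcases subsingleton_or_nontrivial V with hV | hV
  · rw [Module.finrank_zero_of_subsingleton]; exact Nat.zero_le _
  obtain ⟨x, hx0, hx⟩ := exists_common_eigenvector (fun n : f.ker => ρ n.1) (fun a b => by
    rw [← map_mul, ← map_mul, hab a.1 b.1 a.2 b.2])
  let W : Submodule ℂ V := Submodule.span ℂ (Set.range fun h : H => ρ (s h) x)
  have hinv : ∀ (g : G) (w : V), w ∈ W → ρ g w ∈ W := by
    intro g w hw
    have hle : W ≤ W.comap (ρ g) := by
      rw [Submodule.span_le]
      rintro _ ⟨h, rfl⟩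
      change ρ g (ρ (s h) x) ∈ W
      -- `g * s h = s (f g * h) * n` with `n` in the kernel
      let n : G := (s (f g * h))⁻¹ * (g * s h)
      have hn : n ∈ f.ker := by
        rw [MonoidHom.mem_ker, map_mul, map_inv, map_mul, hs, hs]
        exact inv_mul_cancel _
      have e : g * s h = s (f g * h) * n := by
        change g * s h = s (f g * h) * ((s (f g * h))⁻¹ * (g * s h))
        rw [mul_inv_cancel_left]
      rw [← Module.End.mul_apply, ← map_mul, e, map_mul, Module.End.mul_apply]
      obtain ⟨c, hc⟩ := hx ⟨n, hn⟩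
      have hc' : ρ n x = c • x := hc
      rw [hc', map_smul]
      exact W.smul_mem c (Submodule.subset_span ⟨_, rfl⟩)
    exact hle hw
  have htop : W = ⊤ := by
    let W' : Subrepresentation ρ := ⟨W, fun g w hw => hinv g w hw⟩
    have hne : W' ≠ ⊥ := by
      intro h0
      have h1 : x ∈ W := by
        obtain ⟨c, hc⟩ := hx ⟨s 1, by rw [MonoidHom.mem_ker, hs]⟩
        have hc' : ρ (s 1) x = c • x := hc
        have h2 : ρ (s 1) x ∈ W := Submodule.subset_span ⟨1, rfl⟩
        have hc0 : c ≠ 0 := by
          rintro rfl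
          rw [zero_smul] at hc'
          apply hx0
          have h3 : ρ (s 1)⁻¹ (ρ (s 1) x) = x := by
            rw [← Module.End.mul_apply, ← map_mul, inv_mul_cancel, map_one]; rfl
          rw [← h3, hc', map_zero]
        rw [hc'] at h2
        exact (Submodule.smul_mem_iff W hc0).mp h2
      have h2 : x ∈ W' := h1
      rw [h0] at h2
      exact hx0 h2
    have h3 : W' = ⊤ := by
      rcases hρ.eq_bot_or_eq_top W' with h | h
      · exact absurd h hne
      · exact h
    have h4 : W'.toSubmodule = (⊤ : Subrepresentation ρ).toSubmodule := by rw [h3]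
    exact h4
  haveI : Fintype H := Fintype.ofFinite H
  have h1 : Module.finrank ℂ W ≤ Fintype.card H := finrank_range_le_card _
  rw [htop, finrank_top] at h1
  rwa [Nat.card_eq_fintype_card]

/-- If the degree of a character is less than the prime `p`, the character does not vanish on
elements of order `p`. -/
theorem ne_zero_of_lt {G : Type} [Group G] {V : Type} [AddCommGroup V] [Module ℂ V]
    [FiniteDimensional ℂ V] [Nontrivial V] (ρ : Representation ℂ G V) {p : ℕ} (hp : p.Prime)
    (hlt : Module.finrank ℂ V < p) (g : G) (hg : g ^ p = 1) : ρ.character g ≠ 0 := by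
  intro h0
  obtain ⟨ζ, hζ⟩ : ∃ ζ : ℂ, IsPrimitiveRoot ζ p := ⟨_, Complex.isPrimitiveRoot_exp p hp.ne_zero⟩
  obtain ⟨m, hm⟩ := char_expand ρ g hp.pos hg hζ
  have h1 := hm 1
  rw [pow_one, h0] at h1
  have h2 := hm 0
  rw [pow_zero, ρ.char_one] at h2
  simp only [mul_zero, pow_zero, mul_one] at h1 h2
  have h3 : Module.finrank ℂ V = ∑ i ∈ Finset.range p, m i := by exact_mod_cast h2
  -- the polynomial
  let Q : ℚ[X] := ∑ i ∈ Finset.range p, C (m i : ℚ) * X ^ i - C (m (p - 1) : ℚ) * cyclotomic p ℚ
  have hcyc : cyclotomic p ℚ = ∑ i ∈ Finset.range p, X ^ i := by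
    haveI : Fact p.Prime := ⟨hp⟩
    exact cyclotomic_prime ℚ p
  have hQ : Q = ∑ i ∈ Finset.range p, C ((m i : ℚ) - m (p - 1)) * X ^ i := by
    change ∑ i ∈ Finset.range p, C (m i : ℚ) * X ^ i - C (m (p - 1) : ℚ) * cyclotomic p ℚ = _
    rw [hcyc, Finset.mul_sum, ← Finset.sum_sub_distrib]
    refine Finset.sum_congr rfl fun i _ => ?_
    rw [← sub_mul, ← C_sub]
  have hroot : aeval ζ Q = 0 := by
    change aeval ζ (∑ i ∈ Finset.range p, C (m i : ℚ) * X ^ i -
      C (m (p - 1) : ℚ) * cyclotomic p ℚ) = 0
    have h4 : aeval ζ (cyclotomic p ℚ) = 0 := by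
      rw [cyclotomic_eq_minpoly_rat hζ hp.pos]
      exact minpoly.aeval ℚ ζ
    rw [map_sub, map_mul, h4, mul_zero, sub_zero, map_sum]
    rw [h1]
    refine Finset.sum_congr rfl fun i _ => ?_
    simp
  have hdeg : Q.natDegree < p - 1 ∨ Q = 0 := by
    by_cases hQ0 : Q = 0
    · right; exact hQ0
    · left
      have h5 : ∀ i, p - 1 ≤ i → Q.coeff i = 0 := by
        intro i hi
        rw [hQ, finsetSum_coeff]
        simp only [coeff_C_mul, coeff_X_pow]
        apply Finset.sum_eq_zero
        intro j hj
        rw [Finset.mem_range] at hj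
        split_ifs with h
        · have : j = p - 1 := by omega
          rw [this]; ring
        · ring
      by_contra hge
      exact hQ0 (leadingCoeff_eq_zero.mp (h5 _ (by omega)))
  have hQ0 : Q = 0 := by
    rcases hdeg with h | h
    · by_contra hne
      have h5 := natDegree_le_natDegree (minpoly.degree_le_of_ne_zero ℚ ζ hne hroot)
      have h6 : minpoly ℚ ζ = cyclotomic p ℚ := (cyclotomic_eq_minpoly_rat hζ hp.pos).symm
      rw [h6, natDegree_cyclotomic, Nat.totient_prime hp] at h5
      omega
    · exact h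
  have h5 : ∀ i, i < p → m i = m (p - 1) := by
    intro i hi
    have h6 : Q.coeff i = 0 := by rw [hQ0, coeff_zero]
    rw [hQ, finsetSum_coeff] at h6
    simp only [coeff_C_mul, coeff_X_pow] at h6
    rw [Finset.sum_eq_single i] at h6
    · rw [if_pos rfl, mul_one, sub_eq_zero] at h6
      exact_mod_cast h6
    · intro j _ hj
      rw [if_neg hj.symm, mul_zero]
    · intro h; exact absurd (Finset.mem_range.mpr hi) h
  have h6 : Module.finrank ℂ V = p * m (p - 1) := by
    rw [h3, Finset.sum_congr rfl fun i hi => h5 i (Finset.mem_range.mp hi), Finset.sum_const,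
      Finset.card_range, smul_eq_mul]
  have hpos : 0 < Module.finrank ℂ V := Module.finrank_pos
  rcases Nat.eq_zero_or_pos (m (p - 1)) with h7 | h7
  · rw [h7, mul_zero] at h6; omega
  · have : p ≤ p * m (p - 1) := Nat.le_mul_of_pos_right p h7
    omega

end Pool.Agent.Q99.CT
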